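import Pool.Agent.W5h69.TR.Defs
import Pool.Agent.W5h93.EX.Main
import Pool.Agent.W5h38.TV.Few

/-!
# The reduction to torus schemes of complexity at most `n`
-/

set_option autoImplicit false

open CategoryTheory AlgebraicGeometry Pool.Agent.Y116.UV Pool.Agent.Z125.UN Pool.Agent.W5h93.EV
  Pool.Agent.W5h93.EX Pool.Agent.W5h38.TV Pool.Agent.W5h68.SP

namespace Pool.Agent.W5h69.TR

variable {k : Type} [Field k] [PerfectField k] {P : Sch k → Prop} (hP : Bnd True P)

include hP

/-- From the schemes of the class to the torus schemes. -/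
theorem built_of_class {Q : Sch k → Prop} (hQ : IsClass Q) {n : ℕ} (hM : ModelsIn Q n)
    (hX : ForClass Q P n) (X : Sch k) (h : Built n X) : P X :=
  (dim_iff hP n).mp (fun X hX' _ hn => devissage hP hQ hM hX X hX' hn) X h

/-- From the torus schemes to the schemes of the class. -/
theorem class_of_built {Q : Sch k → Prop} (hQ : IsClass Q) {n : ℕ}
    (h : ∀ X : Sch k, Built n X → P X) : ForClass Q P n := fun X hX hn =>
  (dim_iff hP n).mpr h X (hQ.ft hX) (hQ.smooth X hX) hn

theorem class_iff_built {Q : Sch k → Prop} (hQ : IsClass Q) {n : ℕ} (hM : ModelsIn Q n) :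
    ForClass Q P n ↔ ∀ X : Sch k, Built n X → P X :=
  ⟨fun h => built_of_class hP hQ hM h, class_of_built hP hQ⟩

/-- **The reduction to torus schemes.** -/
theorem torusReduces {Q C : Sch k → Prop} (hQ : IsClass Q) (hC : ∀ X, Q X → (C X ↔ P X)) :
    TorusReduces Q C P := by
  have h1 : ∀ n, ForClass Q C n ↔ ForClass Q P n := fun n =>
    forall_congr' fun X => forall_congr' fun hX => forall_congr' fun _ => hC X hX
  refine ⟨fun n h => (h1 n).mpr (class_of_built hP hQ h),
    fun n hM => (h1 n).trans (class_iff_built hP hQ hM), fun n hM h => ?_⟩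
  have h2 := (class_iff_built hP hQ hM).mp ((h1 n).mp h)
  exact ⟨fun m N r t g α b hg hd hb => h2 _ (cones_built n m N r t g α b hg hd hb),
    fun N c t f S b hf hS hc hb => h2 _ (sparse_built n N c t f S b hf hS hc hb)⟩

end Pool.Agent.W5h69.TR
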