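import Pool.Agent.W5h93.EX.Defs
import Pool.Agent.W5h38.TV.Defs
import Pool.Agent.W5h68.SP.Defs

/-!
# The reduction to torus schemes of complexity at most `n`: definitions
-/

set_option autoImplicit false

open CategoryTheory AlgebraicGeometry Pool.Agent.Y116.UV Pool.Agent.W5h93.EV Pool.Agent.W5h93.EX
  Pool.Agent.W5h38.TV Pool.Agent.W5h68.SP

namespace Pool.Agent.W5h69.TR

/-- **The reduction to torus schemes** of the property `C` of the schemes of the class `Q`. The
property `P` of all schemes built from torus schemes of complexity at most `n` implies `C` for all schemes
of the class of dimension at most `n`, and it is equivalent to it if all integral schemes of dimension at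
most `n` have birational models in the class. In this case `C` for the schemes of the class of dimension
at most `n` implies `P` for the inverse images of the cones of dimension at most `n + 1` under all
monomial maps, and for all systems of `c` linearly independent equations with at most `c + n + 1`
monomials (`Cones`, `Sparse`), also with additional equations with at most two terms. -/
structure TorusReduces {k : Type} [Field k] (Q C P : Sch k → Prop) : Prop where
  dim_of_built : ∀ n, (∀ X : Sch k, Built n X → P X) → ForClass Q C n
  dim_iff_built : ∀ n, ModelsIn Q n → (ForClass Q C n ↔ ∀ X : Sch k, Built n X → P X)
  few : ∀ n, ModelsIn Q n → ForClass Q C n → Cones n P ∧ Sparse n P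

end Pool.Agent.W5h69.TR
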