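import Pool.Agent.W5h69.TR.Main

/-!
# The schemes built from torus schemes are separated and of finite type
-/

set_option autoImplicit false

open CategoryTheory AlgebraicGeometry Pool.Agent.Y116.UV Pool.Agent.Z125.UN Pool.Agent.W5h93.EV
  Pool.Agent.W5h93.EX Pool.Agent.W5h38.TV Pool.Agent.W5h68.SP

namespace Pool.Agent.W5h69.TR

variable {k : Type} [Field k]

lemma ft_of_closed {Z X : Sch k} (i : Z ⟶ X) (hi : IsClosedImmersion i.left) (hX : FT True X) :
    FT True Z where
  locallyOfFiniteType := by
    have := hX.locallyOfFiniteType
    rw [← Over.w i]
    infer_instance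
  quasiCompact := by
    have := hX.quasiCompact
    rw [← Over.w i]
    infer_instance
  separated hs := by
    have := hX.separated hs
    rw [← Over.w i]
    infer_instance

lemma noetherianSpace_of_ft {X : Sch k} (hX : FT True X) :
    TopologicalSpace.NoetherianSpace X.left := by
  have h1 := hX.locallyOfFiniteType
  have h2 := hX.quasiCompact
  have h3 : IsLocallyNoetherian (Spec (.of k)) := inferInstance
  have h4 : IsLocallyNoetherian X.left := LocallyOfFiniteType.isLocallyNoetherian X.hom
  have h5 : CompactSpace X.left := (quasiCompact_iff_compactSpace (f := X.hom)).mp h2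
  have h6 : IsNoetherian X.left := {}
  infer_instance

lemma ft_of_open {U X : Sch k} (j : U ⟶ X) (hj : IsOpenImmersion j.left) (hX : FT True X) :
    FT True U where
  locallyOfFiniteType := by
    have := hX.locallyOfFiniteType
    rw [← Over.w j]
    infer_instance
  quasiCompact := by
    have h1 := noetherianSpace_of_ft hX
    have h2 : TopologicalSpace.NoetherianSpace U.left :=
      (j.left.isOpenEmbedding.isInducing).noetherianSpace
    exact (quasiCompact_iff_compactSpace _).mpr inferInstance
  separated hs := by
    have := hX.separated hs
    rw [← Over.w j]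
    infer_instance

lemma ft_of_iso {X Y : Sch k} (e : X ≅ Y) (hX : FT True X) : FT True Y := by
  have h : IsIso e.inv.left := inferInstance
  exact ft_of_open e.inv (by infer_instance) hX

/-- The schemes built from torus schemes are separated and of finite type. -/
theorem ft_built {n : ℕ} {X : Sch k} (h : Built n X) : FT True X := by
  induction h with
  | torus X h =>
    obtain ⟨N, m, κ, G, w, -, -, rfl⟩ := h
    exact ft_aff True
  | iso X Y hX e _ _ =>
    obtain ⟨e⟩ := e
    exact ft_of_iso e hX
  | total Z X U i j hX _ _ _ _ _ => exact hX
  | opened Z X U i j hX ht _ _ _ _ => exact ft_of_open j ht.opened hX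
  | closed Z X U i j hX ht _ _ _ _ => exact ft_of_closed i ht.closed hX

end Pool.Agent.W5h69.TR
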