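import Pool.Agent.W5h69.TR.Main
import Pool.Agent.W5h93.WC.MurreMain

/-!
# Murre's conjectures and torus schemes
-/

set_option autoImplicit false
set_option linter.unusedSectionVars false

open CategoryTheory Limits Pretriangulated MonoidalCategory AlgebraicGeometry Pool.Agent.Y116.UV
  Pool.Agent.Z125.UN Pool.Agent.W5h93.EV Pool.Agent.W5h93.EX Pool.Agent.W5h93.WC
  Pool.Agent.W5h38.TV Pool.Agent.W5h68.SP

universe v u v' u'

namespace Pool.Agent.W5h69.TR

variable {k : Type} [Field k] {𝒜 : Type u} [Category.{v} 𝒜] [Preadditive 𝒜] [HasZeroObject 𝒜]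
  [HasBinaryBiproducts 𝒜] [IsIdempotentComplete 𝒜] [MonoidalCategory 𝒜] [MonoidalPreadditive 𝒜]
  {𝒢 : Type u'} [Category.{v'} 𝒢] [Preadditive 𝒢] {T : ℤ → 𝒜} {H : ℤ → 𝒜 ⥤ 𝒢}
  {W : Sch k → HomotopyCategory 𝒜 (ComplexShape.up ℤ)}

variable (hT : IsTate T) (hH : IsHomology T H) (hW : IsWeightComplex T W) {Q : Sch k → Prop}
  (hQ : IsClass Q) {h : Sch k → 𝒜} (hh : ∀ X, Q X → Nonempty (W X ≅ cpx (h X)))

include hT hH hW hQ hh

/-- **The strong form of Murre's conjectures for motives of dimension at most `n`, from torus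
schemes.** -/
theorem murre_torus [PerfectField k] [RightRigidCategory 𝒜] (n : ℕ)
    (h1 : ∀ X : Sch k, Built n X → Null (Strong H (DimGen T h Q n)) (W X).as) :
      ∀ M, DimGen T h Q n M → Strong H (DimGen T h Q n) M := by
  have hadd := hH.additive
  intro M hM
  by_cases hQn : ∃ X, Q X ∧ topologicalKrullDim X.left ≤ n
  swap
  · exact hM _ (fun A B hA hB => Strong.sum (Gen.sum) hA hB)
      (fun A l hA => Strong.twist (fun _ l hA => hA.twist l) hT hH hA l)
      (fun A B s r hs hB => Strong.retract Gen.ret s r hs hB) fun X hX => (hQn ⟨X, hX⟩).elim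
  obtain ⟨X₀, hX₀⟩ := hQn
  have hne : ∃ A : 𝒜, DimGen T h Q n A := ⟨h X₀, Gen.of (Q := fun X => Q X ∧
    topologicalKrullDim X.left ≤ n) hX₀⟩
  have hk : ringKrullDim k ≤ n := by
    rw [ringKrullDim_eq_zero_of_field]
    exact_mod_cast Nat.zero_le n
  have h0 : (strongCls (H := H) hne (fun _ _ => Gen.sum) Gen.ret).prop (T 0) := by
    obtain ⟨e⟩ := hW.point
    refine (null_cpx (V := strongCls hne (fun _ _ => Gen.sum) Gen.ret)).mp ?_
    exact (h1 _ (built_of_dim (A := k) hk)).of_iso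
      (V := strongCls hne (fun _ _ => Gen.sum) Gen.ret) e
  have h3 : Bnd True fun X : Sch k => Null (Strong H (DimGen T h Q n)) (W X).as :=
    bnd_wc (V := strongCls hne (fun _ _ => Gen.sum) Gen.ret)
      (fun l A hA => Strong.twist (fun _ l hA => hA.twist l) hT hH hA l) h0 hW
  refine hM _ (fun A B hA hB => Strong.sum (Gen.sum) hA hB)
      (fun A l hA => Strong.twist (fun _ l hA => hA.twist l) hT hH hA l)
      (fun A B s r hs hB => Strong.retract Gen.ret s r hs hB) fun X hX => ?_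
  have h4 := class_of_built h3 hQ h1 X hX.1 hX.2
  obtain ⟨e⟩ := hh X hX.1
  exact (null_cpx (V := strongCls hne (fun _ _ => Gen.sum) Gen.ret)).mp
    (h4.of_iso (V := strongCls hne (fun _ _ => Gen.sum) Gen.ret) e)

/-- **The strong form of Murre's conjectures for motives of dimension at most `n`, and torus
schemes.** -/
theorem murre_torus_iff [PerfectField k] [RightRigidCategory 𝒜] (hpt : Q (aff k k)) (n : ℕ)
    (hM : ModelsIn Q n) :
    (∀ M, DimGen T h Q n M → Strong H (DimGen T h Q n) M) ↔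
      ∀ X : Sch k, Built n X → Null (Strong H (DimGen T h Q n)) (W X).as := by
  refine ⟨fun h1 => ?_, murre_torus hT hH hW hQ hh n⟩
  have hadd := hH.additive
  have hdim : topologicalKrullDim (aff k k).left ≤ n := by
    have h2 : topologicalKrullDim (aff k k).left = ringKrullDim k :=
      (PrimeSpectrum.topologicalKrullDim_eq_ringKrullDim k)
    rw [h2, ringKrullDim_eq_zero_of_field]
    exact_mod_cast Nat.zero_le n
  have h0 : DimGen T h Q n (h (aff k k)) := Gen.of (Q := fun X => Q X ∧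
    topologicalKrullDim X.left ≤ n) ⟨hpt, hdim⟩
  have hne : ∃ A : 𝒜, DimGen T h Q n A := ⟨_, h0⟩
  have h3 := bnd_of_strong hT hH hW hQ hh hne (fun _ _ => Gen.sum) Gen.ret
    (fun _ l hA => hA.twist l) hpt (h1 _ h0)
  refine built_of_class h3 hQ hM fun X hX hXn => ?_
  obtain ⟨e⟩ := hh X hX
  exact ((null_cpx (V := strongCls hne (fun _ _ => Gen.sum) Gen.ret)).mpr (h1 _ (Gen.of
    (Q := fun X => Q X ∧ topologicalKrullDim X.left ≤ n) ⟨hX, hXn⟩))).of_iso
    (V := strongCls hne (fun _ _ => Gen.sum) Gen.ret) e.symm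

end Pool.Agent.W5h69.TR
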