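import Pool.Agent.W5h93.EX.OrdDefs
import Pool.Agent.W5h38.TV.Defs

/-!
# Torus schemes: pairs of schemes and common zeros, definitions
-/

set_option autoImplicit false

open CategoryTheory AlgebraicGeometry Pool.Agent.Y116.UV Pool.Agent.W5h38.TV

namespace Pool.Agent.W5h69.TR

variable {k : Type} [Field k]

/-- `η` vanishes for all pairs of schemes built from torus schemes of complexity at most `n`. -/
def PairBuilt {M : Type*} [AddCommGroup M] (η : Sch k → Sch k → ℤ → M) (n : ℕ) : Prop :=
  ∀ X Y : Sch k, Built n X → Built n Y → ∀ c, η X Y c = 0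

/-- For every finite family of schemes `X` with the property `R` and of degrees `c` there are infinitely
many common zeros `v` of the functions `v ↦ δ X c v`. -/
def CommonZerosOn {ι : Type} (δ : Sch k → ℤ → ι → ℚ) (R : Sch k → Prop) : Prop :=
  ∀ L : List (Sch k × ℤ), (∀ x ∈ L, R x.1) → {v | ∀ x ∈ L, δ x.1 x.2 v = 0}.Infinite

end Pool.Agent.W5h69.TR
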