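import Pool.Agent.W5h69.TR.Ft
import Pool.Agent.W5h69.TR.PairDefs
import Pool.Agent.W5h93.EX.PairMain
import Pool.Agent.W5h93.EX.OrdMain

/-!
# Torus schemes: pairs of schemes and common zeros
-/

set_option autoImplicit false

open CategoryTheory AlgebraicGeometry Pool.Agent.Y116.UV Pool.Agent.Z125.UN Pool.Agent.W5h93.EV
  Pool.Agent.W5h93.EX Pool.Agent.W5h38.TV Filter

namespace Pool.Agent.W5h69.TR

variable {k : Type} [Field k] [PerfectField k] {Q : Sch k → Prop}

section pair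

variable {M : Type*} [AddCommGroup M] {η : Sch k → Sch k → ℤ → M}

theorem pair_of_built (hη : IsBiadditive η) (hQ : IsClass Q) {n : ℕ} (h : PairBuilt η n) :
    PairZero η Q n := by
  have h1 : ∀ X : Sch k, Q X → topologicalKrullDim X.left ≤ n → ∀ Y : Sch k, Built n Y →
      ∀ c, η X Y c = 0 := fun X hX hd Y hY =>
    class_of_built (bnd_additive (hη.left Y (ft_built hY))) hQ (fun X hX => h X Y hX hY) X hX hd
  intro X Y hX hY hXd hYd
  exact class_of_built (bnd_additive (hη.right X (hQ.ft hX))) hQ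
    (fun Y hY => h1 X hX hXd Y hY) Y hY hYd

theorem built_of_pair (hη : IsBiadditive η) (hQ : IsClass Q) {n : ℕ} (hM : ModelsIn Q n)
    (h : PairZero η Q n) : PairBuilt η n := by
  have h1 : ∀ X : Sch k, Built n X → ∀ Y, Q Y → topologicalKrullDim Y.left ≤ n →
      ∀ c, η X Y c = 0 := fun X hX Y hY hYd =>
    built_of_class (bnd_additive (hη.left Y (hQ.ft hY))) hQ hM
      (fun X hX hXd => h X Y hX hY hXd hYd) X hX
  intro X Y hX hY
  exact built_of_class (bnd_additive (hη.right X (ft_built hX))) hQ hM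
    (fun Y hY hYd => h1 X hX Y hY hYd) Y hY

end pair

section zeros

variable {ι : Type} {D : SlopeData k ι} {δ : Sch k → ℤ → ι → ℚ}

lemma zerosOn_iff_ultra {R : Sch k → Prop} : CommonZerosOn δ R ↔
    ∃ 𝒰 : Ultrafilter ι, (𝒰 : Filter ι) ≤ cofinite ∧
      ∀ X : Sch k, R X → ∀ c, (δ X c : Germ (𝒰 : Filter ι) ℚ) = 0 := by
  constructor
  · intro h
    obtain ⟨𝒰, hU, h1⟩ := exists_ultra (S := {x : Sch k × ℤ | R x.1})
      (E := fun x => {v | δ x.1 x.2 v = 0}) h
    exact ⟨𝒰, hU, fun X hX c => germ_zero.mpr (h1 (X, c) hX)⟩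
  · rintro ⟨𝒰, hU, h⟩ L hL
    exact infinite_of_ultra (S := {x : Sch k × ℤ | R x.1})
      (E := fun x => {v | δ x.1 x.2 v = 0}) hU (fun x hx => germ_zero.mp (h x.1 hx x.2)) L hL

theorem common_of_builtZeros (hQ : IsClass Q) (hD : D.IsSlope Q) (hδ : D.IsDefect Q δ) {n : ℕ}
    (h : CommonZerosOn δ (Built n)) : D.Common Q n := by
  rw [common_iff_ultra]
  obtain ⟨𝒰, hU, h1⟩ := zerosOn_iff_ultra.mp h
  refine ⟨𝒰, hU, fun X hX hd => (zero_iff hD hδ hU hX).mp ?_⟩
  exact class_of_built (bnd_additive (additive_of_le hδ.additive hU)) hQ h1 X hX hd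

theorem builtZeros_of_common (hQ : IsClass Q) (hD : D.IsSlope Q) (hδ : D.IsDefect Q δ) {n : ℕ}
    (hM : ModelsIn Q n) (h : D.Common Q n) : CommonZerosOn δ (Built n) := by
  rw [zerosOn_iff_ultra]
  obtain ⟨𝒰, hU, h1⟩ := common_iff_ultra.mp h
  refine ⟨𝒰, hU, ?_⟩
  exact built_of_class (bnd_additive (additive_of_le hδ.additive hU)) hQ hM
    fun X hX hd => (zero_iff hD hδ hU hX).mpr (h1 X hX hd)

end zeros

end Pool.Agent.W5h69.TR
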